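import Pool.Agent.W31.QT.Asm
import Pool.Agent.W308.QT.TB1
import Pool.Agent.W308.QT.TC
import Pool.Agent.W249.QT.B
import Pool.Agent.W347.QT.A

/-!
# Every class is a sum of classes of quasitoric manifolds

For every `n ≥ 1` and every list of fixed point data of dimension `2n` which satisfies the
integrality of the localization theorem (as the fixed points of every unitary toric manifold do)
there are quasitoric pairs `Q_1, …, Q_k` over simple `n`-polytopes such that the class of the list
in the free abelian group on the unordered collections of weights is the sum of the classes of
the `Q_i`.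
-/

namespace Pool.Agent.Results.MP_92d00e_gt.QuasitoricSurjective

open Pool.Agent.W31.QT

theorem result (n : ℕ) (hn : 1 ≤ n) (L : List (FixedPoint n)) (hL : Integral L) :
    ∃ Qs : List (QuasitoricPair n), cls L = (Qs.map QuasitoricPair.cls).sum :=
  assembly Pool.Agent.W347.QT.done Pool.Agent.W249.QT.done Pool.Agent.W308.QT.TB1.done
    Pool.Agent.W308.QT.TC.done n hn L hL

end Pool.Agent.Results.MP_92d00e_gt.QuasitoricSurjective
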